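import Pool.Agent.H84.R2.B.Basic
import Pool.Agent.H84.R2.B.R9f66d723.W5h49.EC.Flow

/-! The Moser trick for paths of submersions. -/

set_option autoImplicit false
set_option linter.unusedSectionVars false

open Set Filter Topology Metric Function
open scoped ContDiff Manifold

namespace Pool.Agent.H83.BI

section

variable {E F : Type} [NormedAddCommGroup E] [NormedSpace ℝ E] [FiniteDimensional ℝ E]
  [NormedAddCommGroup F] [NormedSpace ℝ F] [FiniteDimensional ℝ F]

/-- smooth solutions of an underdetermined linear system -/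
theorem smooth_solution {M : Type} [NormedAddCommGroup M] [NormedSpace ℝ M]
    [FiniteDimensional ℝ M] {A : M → (E →L[ℝ] F)} {q : M → F} (hA : ContDiff ℝ ∞ A)
    (hq : ContDiff ℝ ∞ q) (hs : ∀ p, Surjective (A p)) :
    ∃ Y : M → E, ContDiff ℝ ∞ Y ∧ (∀ p, A p (Y p) = q p) ∧ ∀ p, q p = 0 → Y p = 0 := by
  have key := exists_contMDiffMap_forall_mem_convex_of_local (n := (⊤ : ℕ∞)) (F := E)
    𝓘(ℝ, M) (M := M) (t := fun p => {v : E | A p v = q p ∧ (q p = 0 → v = 0)}) ?_ ?_
  · obtain ⟨g, hg⟩ := key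
    exact ⟨g, g.contMDiff.contDiff, fun p => (hg p).1, fun p => (hg p).2⟩
  · intro p v hv w hw a b ha hb hab
    refine ⟨?_, fun h0 => ?_⟩
    · rw [map_add, map_smul, map_smul, hv.1, hw.1, ← add_smul, hab, one_smul]
    · rw [hv.2 h0, hw.2 h0, smul_zero, smul_zero, add_zero]
  · intro p₀
    obtain ⟨C, hC⟩ := LinearMap.exists_rightInverse_of_surjective (A p₀ : E →ₗ[ℝ] F)
      (LinearMap.range_eq_top.2 (hs p₀))
    set C' : F →L[ℝ] E := LinearMap.toContinuousLinearMap C with hC'
    have hAC : (A p₀).comp C' = ((ContinuousLinearEquiv.refl ℝ F : F ≃L[ℝ] F) : F →L[ℝ] F) := by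
      ext y
      exact LinearMap.congr_fun hC y
    have hB : ContDiff ℝ ∞ (fun p => (A p).comp C') := hA.clm_comp contDiff_const
    refine ⟨(fun p => (A p).comp C') ⁻¹' range ((↑) : (F ≃L[ℝ] F) → F →L[ℝ] F), ?_,
      fun p => C' (ContinuousLinearMap.inverse ((A p).comp C') (q p)), ?_, ?_⟩
    · exact hB.continuous.continuousAt.preimage_mem_nhds
        (by rw [hAC]; exact ContinuousLinearEquiv.nhds _)
    · intro p hp
      obtain ⟨e, he⟩ := hp
      have h1 : ContDiffAt ℝ ∞ (ContinuousLinearMap.inverse : (F →L[ℝ] F) → (F →L[ℝ] F))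
          ((A p).comp C') := by
        have := contDiffAt_map_inverse (𝕜 := ℝ) (n := ∞) e
        simp only at he
        rwa [he] at this
      have h2 : ContDiffAt ℝ ∞ (fun p => ContinuousLinearMap.inverse ((A p).comp C')) p :=
        ContDiffAt.comp (g := ContinuousLinearMap.inverse) (f := fun p => (A p).comp C') p h1
          hB.contDiffAt
      have h3 : ContDiffAt ℝ ∞
          (fun p => C' (ContinuousLinearMap.inverse ((A p).comp C') (q p))) p :=
        C'.contDiff.contDiffAt.comp p (h2.clm_apply hq.contDiffAt)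
      exact h3.contMDiffAt.contMDiffWithinAt
    · rintro p ⟨e, he⟩
      simp only at he
      refine ⟨?_, fun h0 => ?_⟩
      · show A p (C' (ContinuousLinearMap.inverse ((A p).comp C') (q p))) = q p
        have h1 : A p (C' (ContinuousLinearMap.inverse ((A p).comp C') (q p))) =
            ((A p).comp C') (ContinuousLinearMap.inverse ((A p).comp C') (q p)) := rfl
        rw [h1, ← he, ContinuousLinearMap.inverse_equiv]
        simp
      · show C' (ContinuousLinearMap.inverse ((A p).comp C') (q p)) = 0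
        rw [h0, map_zero, map_zero]

/-- flow of a smooth compactly supported time dependent vector field -/
theorem flow_triv (Y : ℝ × E → E) (hY : ContDiff ℝ ∞ Y) (hc : HasCompactSupport Y) {R : ℝ}
    (hR : ∀ s x, R ≤ ‖x‖ → Y (s, x) = 0) :
    ∃ Φ : ℝ × E → E, ContDiff ℝ ∞ Φ ∧ (∀ x, Φ (0, x) = x) ∧
      (∀ s x, HasDerivAt (fun s => Φ (s, x)) (Y (s, Φ (s, x))) s) ∧
      (∀ s x, R ≤ ‖x‖ → Φ (s, x) = x) ∧
      ∀ t x, Injective (fderiv ℝ (fun y => Φ (t, y)) x) := by
  set X : ℝ × E → ℝ × E := fun p => (0, Y p) with hX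
  have hXs : ContDiff ℝ ∞ X := contDiff_const.prodMk hY
  have hXc : HasCompactSupport X := by
    refine hc.mono ?_
    intro p hp h
    apply hp
    simp only [hX, Prod.mk_eq_zero, true_and]
    exact h
  obtain ⟨G, hG, hG0, hGa, hGd, hGu⟩ :=
    Pool.Agent.W5h49.EC.flow_affine ((1, 0) : ℝ × E) X hXs hXc
  have hfst : ∀ r s x, (G r (s, x)).1 = s + r := by
    intro r s x
    have h1 : ∀ r, HasDerivAt (fun r => (G r (s, x)).1 - r) 0 r := by
      intro r
      have h2 : HasDerivAt (fun r => (G r (s, x)).1) 1 r := by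
        have h3 := (hGd (s, x) r)
        have h4 := (ContinuousLinearMap.fst ℝ ℝ E).hasFDerivAt.comp_hasDerivAt r h3
        simpa [hX, Function.comp_def] using h4
      have h3 : HasDerivAt (fun r => (G r (s, x)).1 - r) (1 - 1) r := h2.sub (hasDerivAt_id r)
      simpa using h3
    have h2 := is_const_of_deriv_eq_zero (fun r => (h1 r).differentiableAt)
      (fun r => (h1 r).deriv) r 0
    simp only [hG0] at h2
    linarith
  have hsnd : ∀ s x r, HasDerivAt (fun r => (G r (s, x)).2) (Y (G r (s, x))) r := by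
    intro s x r
    have h3 := (hGd (s, x) r)
    have h4 := (ContinuousLinearMap.snd ℝ ℝ E).hasFDerivAt.comp_hasDerivAt r h3
    simpa [hX, Function.comp_def] using h4
  have hsm : ContDiff ℝ ∞ (fun q : ℝ × E => (G q.1 (0, q.2)).2) :=
    contDiff_snd.comp (hG.comp (contDiff_fst.prodMk (contDiff_const.prodMk contDiff_snd)))
  refine ⟨fun q => (G q.1 (0, q.2)).2, hsm, ?_, ?_, ?_, ?_⟩
  · intro x
    simp [hG0]
  · intro s x
    have h1 := hsnd 0 x s
    have h2 : G s (0, x) = (s, (G s (0, x)).2) := by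
      refine Prod.ext ?_ rfl
      simp [hfst]
    rw [h2] at h1
    exact h1
  · intro s x hx
    have h1 : ((s, x) : ℝ × E) = G s (0, x) :=
      hGu (fun r => ((r, x) : ℝ × E)) (fun t => by
        simp only [hX, hR _ x hx]
        have h2 := (hasDerivAt_id t).prodMk (hasDerivAt_const t x)
        simpa using h2) s
    exact (congrArg Prod.snd h1).symm
  · intro s x
    have e1 : ∀ x, G s (0, x) = (s, (G s (0, x)).2) := by
      intro x
      refine Prod.ext ?_ rfl
      simp [hfst]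
    have e2 : ∀ x, G (-s) (s, x) = (0, (G (-s) (s, x)).2) := by
      intro x
      refine Prod.ext ?_ rfl
      simp [hfst]
    have hs2 : ContDiff ℝ ∞ (fun y : E => (G (-s) (s, y)).2) :=
      contDiff_snd.comp (hG.comp (contDiff_const.prodMk (contDiff_const.prodMk contDiff_id)))
    refine IsDiffeo.inj ⟨slice hsm s, fun y => (G (-s) (s, y)).2, hs2, ?_, ?_⟩ x
    · intro x
      simp only
      rw [← e1 x, ← hGa]
      simp [hG0]
    · intro y
      simp only
      rw [← e2 y, ← hGa]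
      simp [hG0]

/-- **Moser trick**: a path of submersions which starts with a linear map `π` and is equal to `π`
off a ball ends with `π ∘ g⁻¹`, where `g` is isotopic to the identity. -/
theorem moser (π : E →L[ℝ] F) {Q : ℝ × E → F} {R : ℝ} (hQ : ContDiff ℝ ∞ Q)
    (hs : ∀ t ∈ Icc (0 : ℝ) 1, ∀ x, Surjective (fderiv ℝ (fun y => Q (t, y)) x))
    (hR : ∀ t ∈ Icc (0 : ℝ) 1, ∀ x, R ≤ ‖x‖ → Q (t, x) = π x) (h0 : ∀ x, Q (0, x) = π x) :
    ∃ g : E → E, Triv g ∧ (∀ x, R ≤ ‖x‖ → g x = x) ∧ ∀ x, Q (1, g x) = π x := by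
  have hm : ∀ t : ℝ, Real.smoothTransition t ∈ Icc (0 : ℝ) 1 := fun t =>
    ⟨Real.smoothTransition.nonneg t, Real.smoothTransition.le_one t⟩
  set P : ℝ × E → F := fun p => Q (Real.smoothTransition p.1, p.2) with hP
  have hPs : ContDiff ℝ ∞ P :=
    hQ.comp ((Real.smoothTransition.contDiff.comp contDiff_fst).prodMk contDiff_snd)
  have hPd : ∀ p : ℝ × E, HasFDerivAt P (fderiv ℝ P p) p := fun p =>
    (hPs.differentiable (by simp) p).hasFDerivAt
  have hPf : ContDiff ℝ ∞ (fderiv ℝ P) := hPs.fderiv_right (m := ∞) (by simp)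
  set A : ℝ × E → (E →L[ℝ] F) := fun p => (fderiv ℝ P p).comp (ContinuousLinearMap.inr ℝ ℝ E)
    with hA
  set q : ℝ × E → F := fun p => - fderiv ℝ P p (1, 0) with hq
  have hAs : ContDiff ℝ ∞ A := hPf.clm_comp contDiff_const
  have hqs : ContDiff ℝ ∞ q := (hPf.clm_apply contDiff_const).neg
  have hAeq : ∀ p : ℝ × E, HasFDerivAt (fun y => P (p.1, y)) (A p) p.2 := by
    intro p
    have e4 : HasFDerivAt (𝕜 := ℝ) (fun y : E => (p.1, y)) (ContinuousLinearMap.inr ℝ ℝ E) p.2 :=
      hasFDerivAt_prodMk_right p.1 p.2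
    exact HasFDerivAt.comp (g := P) (f := fun y : E => (p.1, y)) p.2 (hPd p) e4
  have hqeq : ∀ p : ℝ × E, HasDerivAt (fun s => P (s, p.2)) (- q p) p.1 := by
    intro p
    have e4 : HasDerivAt (fun s : ℝ => (s, p.2)) ((1 : ℝ), (0 : E)) p.1 :=
      (hasDerivAt_id' p.1).prodMk (hasDerivAt_const p.1 p.2)
    have e5 := (hPd p).comp_hasDerivAt p.1 e4
    rw [hq]
    simp only [neg_neg]
    exact e5
  obtain ⟨Y, hY, hAY, hY0⟩ := smooth_solution hAs hqs (fun p => by
    rw [← (hAeq p).fderiv]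
    exact hs _ (hm p.1) p.2)
  -- where `q` vanishes
  have hq1 : ∀ s x, R ≤ ‖x‖ → q (s, x) = 0 := by
    intro s x hx
    have h1 := hqeq (s, x)
    have h2 : (fun s => P (s, x)) = fun _ => π x := by
      funext s
      exact hR _ (hm s) x hx
    simp only at h1
    rw [h2] at h1
    have h3 := h1.unique (hasDerivAt_const s (π x))
    exact neg_eq_zero.1 h3
  have hq2 : ∀ s x, s < 0 → q (s, x) = 0 := by
    intro s x hs
    have h1 := hqeq (s, x)
    have h2 : (fun s => P (s, x)) =ᶠ[𝓝 s] fun _ => Q (0, x) := by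
      filter_upwards [Iio_mem_nhds hs] with r hr
      show Q (Real.smoothTransition r, x) = _
      rw [Real.smoothTransition.zero_of_nonpos (le_of_lt hr)]
    have h3 := (h1.congr_of_eventuallyEq h2.symm).unique (hasDerivAt_const s (Q (0, x)))
    exact neg_eq_zero.1 h3
  have hq3 : ∀ s x, 1 < s → q (s, x) = 0 := by
    intro s x hs
    have h1 := hqeq (s, x)
    have h2 : (fun s => P (s, x)) =ᶠ[𝓝 s] fun _ => Q (1, x) := by
      filter_upwards [Ioi_mem_nhds hs] with r hr
      show Q (Real.smoothTransition r, x) = _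
      rw [Real.smoothTransition.one_of_one_le (le_of_lt hr)]
    have h3 := (h1.congr_of_eventuallyEq h2.symm).unique (hasDerivAt_const s (Q (1, x)))
    exact neg_eq_zero.1 h3
  have hYc : HasCompactSupport Y := by
    refine HasCompactSupport.intro ((isCompact_Icc (a := (0 : ℝ)) (b := 1)).prod
      (isCompact_closedBall (0 : E) R)) ?_
    rintro ⟨s, x⟩ hp
    apply hY0
    by_cases hx : R ≤ ‖x‖
    · exact hq1 s x hx
    · have hx' : x ∈ closedBall (0 : E) R := by
        rw [mem_closedBall_zero_iff]; exact (not_le.1 hx).le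
      by_cases h1 : s < 0
      · exact hq2 s x h1
      · by_cases h2 : 1 < s
        · exact hq3 s x h2
        · have h3 : s ∈ Icc (0 : ℝ) 1 := ⟨not_lt.1 h1, not_lt.1 h2⟩
          exact absurd (mk_mem_prod h3 hx') hp
  obtain ⟨Φ, hΦ, hΦ0, hΦd, hΦR, hΦi⟩ := flow_triv Y hY hYc (R := R)
    (fun s x hx => hY0 _ (hq1 s x hx))
  have hcons : ∀ x s, P (s, Φ (s, x)) = P (0, Φ (0, x)) := by
    intro x s
    have h1 : ∀ s, HasDerivAt (fun s => P (s, Φ (s, x))) 0 s := by
      intro s
      have e1 : HasDerivAt (fun s => (s, Φ (s, x))) ((1 : ℝ), Y (s, Φ (s, x))) s :=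
        (hasDerivAt_id' s).prodMk (hΦd s x)
      have e2 := (hPd (s, Φ (s, x))).comp_hasDerivAt s e1
      have e3 : fderiv ℝ P (s, Φ (s, x)) ((1 : ℝ), Y (s, Φ (s, x))) = 0 := by
        have e4 : (((1 : ℝ), Y (s, Φ (s, x))) : ℝ × E) = (1, 0) + (0, Y (s, Φ (s, x))) := by simp
        rw [e4, map_add]
        have e5 : fderiv ℝ P (s, Φ (s, x)) (0, Y (s, Φ (s, x))) =
            A (s, Φ (s, x)) (Y (s, Φ (s, x))) := rfl
        rw [e5, hAY]
        simp [hq]
      rw [e3] at e2
      exact e2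
    exact is_const_of_deriv_eq_zero (fun s => (h1 s).differentiableAt)
      (fun s => (h1 s).deriv) s 0
  refine ⟨fun x => Φ (1, x), ⟨Φ, R, hΦ, hΦi, hΦR, hΦ0, fun x => rfl⟩, fun x hx => hΦR 1 x hx,
    fun x => ?_⟩
  have h1 := hcons x 1
  rw [hΦ0] at h1
  simp only [hP, Real.smoothTransition.one, Real.smoothTransition.zero] at h1
  rw [h1, h0]

/-- reduction to maps which preserve the fibres of `π` -/
theorem reduce (π : E →L[ℝ] F)
    (hπ : ∀ h : E → E, IsDiffeo h → (∃ R : ℝ, ∀ x, R ≤ ‖x‖ → h x = x) → (∀ x, π (h x) = π x) →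
      Triv h)
    {f : E → E} (hf : IsDiffeo f) {Q : ℝ × E → F} {R : ℝ} (hQ : ContDiff ℝ ∞ Q)
    (hs : ∀ t ∈ Icc (0 : ℝ) 1, ∀ x, Surjective (fderiv ℝ (fun y => Q (t, y)) x))
    (hR : ∀ t ∈ Icc (0 : ℝ) 1, ∀ x, R ≤ ‖x‖ → Q (t, x) = π x) (h0 : ∀ x, Q (0, x) = π x)
    (h1 : ∀ x, Q (1, x) = π (f x)) (hfR : ∃ R : ℝ, ∀ x, R ≤ ‖x‖ → f x = x) : Triv f := by
  obtain ⟨g, hg, hgR, hgQ⟩ := moser π hQ hs hR h0
  obtain ⟨R', hfR'⟩ := hfR
  obtain ⟨Φ, R₁, g1, g2, g3, g4, g5⟩ := id hg
  have hgd : IsDiffeo g := by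
    have h2 : g = fun x => Φ (1, x) := funext fun x => (g5 x).symm
    rw [h2]
    exact isDiffeo_of_local (slice g1 1) (g2 1) (g3 1)
  obtain ⟨hgs, k, hks, hl, hr⟩ := hgd
  obtain ⟨hfs, k', hks', hl', hr'⟩ := hf
  have hd : IsDiffeo (fun x => f (g x)) := by
    refine ⟨hfs.comp hgs, fun x => k (k' x), hks.comp hks', fun x => ?_, fun x => ?_⟩
    · show k (k' (f (g x))) = x
      rw [hl', hl]
    · show f (g (k (k' x))) = x
      rw [hr, hr']
  have h3 : Triv (fun x => f (g x)) := by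
    refine hπ _ hd ⟨max R R', fun x hx => ?_⟩ fun x => ?_
    · rw [hgR x ((le_max_left _ _).trans hx), hfR' x ((le_max_right _ _).trans hx)]
    · rw [← h1, hgQ]
  have h4 := h3.comp (hg.inv hr)
  have h5 : (fun x => f (g (k x))) = f := by
    funext x
    rw [hr]
  rw [h5] at h4
  exact h4

/-- maps preserving the fibres of a linear map with fibres of dimension at most `1` -/
theorem triv_of_fiber_one (π : E →L[ℝ] F) (hπ : Module.finrank ℝ (LinearMap.ker (π : E →ₗ[ℝ] F)) ≤ 1)
    (h : E → E) (hd : IsDiffeo h) (hR : ∃ R : ℝ, ∀ x, R ≤ ‖x‖ → h x = x)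
    (hp : ∀ x, π (h x) = π x) : Triv h := by
  obtain ⟨R, hR⟩ := hR
  have hs := hd.1
  have hdf : ∀ x, HasFDerivAt h (fderiv ℝ h x) x := fun x =>
    (hs.differentiable (by simp) x).hasFDerivAt
  have hpd : ∀ x v, π (fderiv ℝ h x v) = π v := by
    intro x v
    have e1 : HasFDerivAt (fun y => π (h y)) (π.comp (fderiv ℝ h x)) x :=
      π.hasFDerivAt.comp x (hdf x)
    have e2 : (fun y => π (h y)) = fun y => π y := funext hp
    rw [e2] at e1
    have e3 := e1.unique π.hasFDerivAt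
    exact DFunLike.congr_fun e3 v
  -- the factor on the fibres
  have key : ∀ v, π v = 0 → v ≠ 0 → ∀ x, ∃ a : ℝ, 0 < a ∧ fderiv ℝ h x v = a • v := by
    intro v hv hv0
    have hfac : ∀ x, ∃ a : ℝ, fderiv ℝ h x v = a • v := by
      intro x
      have h1 : (⟨v, hv⟩ : LinearMap.ker (π : E →ₗ[ℝ] F)) ≠ 0 := by
        intro h2
        exact hv0 (congrArg Subtype.val h2)
      have h2 : fderiv ℝ h x v ∈ LinearMap.ker (π : E →ₗ[ℝ] F) := by
        rw [LinearMap.mem_ker]
        exact (hpd x v).trans hv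
      obtain ⟨u, hu⟩ := (finrank_le_one_iff (K := ℝ)).1 hπ
      obtain ⟨a, ha⟩ := hu ⟨v, hv⟩
      obtain ⟨b, hb⟩ := hu ⟨_, h2⟩
      have ha0 : a ≠ 0 := by
        rintro rfl
        rw [zero_smul] at ha
        exact h1 ha.symm
      refine ⟨b / a, ?_⟩
      have h3 := congrArg Subtype.val ha
      have h4 := congrArg Subtype.val hb
      simp only [Submodule.coe_smul] at h3 h4
      rw [← h3, smul_smul, div_mul_cancel₀ _ ha0, h4, h3]
    choose a ha using hfac
    obtain ⟨ℓ, hℓ⟩ : ∃ ℓ : E →L[ℝ] ℝ, ℓ v = 1 := by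
      obtain ⟨ℓ, hℓ⟩ := exists_dual_vector'' ℝ v
      refine ⟨(‖v‖)⁻¹ • ℓ, ?_⟩
      rw [smul_apply, hℓ.2]
      simp [hv0]
    have haℓ : ∀ x, a x = ℓ (fderiv ℝ h x v) := by
      intro x
      rw [ha x, map_smul, hℓ, smul_eq_mul, mul_one]
    have hac : Continuous a := by
      have h1 : a = fun x => ℓ (fderiv ℝ h x v) := funext haℓ
      rw [h1]
      exact ℓ.continuous.comp ((hs.continuous_fderiv (by simp)).clm_apply continuous_const)
    have han : ∀ x, a x ≠ 0 := by
      intro x h0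
      have h1 := ha x
      rw [h0, zero_smul] at h1
      apply hv0
      apply hd.inj x
      rw [h1, map_zero]
    have hnt : Nontrivial E := ⟨v, 0, hv0⟩
    obtain ⟨z, hz⟩ := NormedSpace.exists_lt_norm ℝ E R
    have haz : a z = 1 := by
      have h1 : h =ᶠ[𝓝 z] fun x => x := by
        filter_upwards [(isOpen_lt continuous_const continuous_norm).mem_nhds hz] with x hx
        exact hR x (le_of_lt hx)
      rw [haℓ, h1.fderiv_eq]
      simp [hℓ]
    intro x
    refine ⟨a x, ?_, ha x⟩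
    by_contra hneg
    obtain ⟨y, hy⟩ := mem_range_of_exists_le_of_exists_ge hac (c := 0) ⟨x, not_lt.1 hneg⟩
      ⟨z, by rw [haz]; exact zero_le_one⟩
    exact han y hy
  refine triv_of_path (G := fun p => p.2 + p.1 • (h p.2 - p.2)) (R := R)
    (contDiff_snd.add (contDiff_fst.smul ((hs.comp contDiff_snd).sub contDiff_snd))) ?_ ?_ ?_ ?_
  · intro t ht x
    have e1 : HasFDerivAt (fun y => y + t • (h y - y))
        (ContinuousLinearMap.id ℝ E + t • (fderiv ℝ h x - ContinuousLinearMap.id ℝ E)) x :=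
      (hasFDerivAt_id x).add (((hdf x).sub (hasFDerivAt_id x)).const_smul t)
    show Injective (fderiv ℝ (fun y => y + t • (h y - y)) x)
    rw [e1.fderiv, injective_iff_map_eq_zero]
    intro v hv
    have hv' : v + t • (fderiv ℝ h x v - v) = 0 := hv
    by_contra hv0
    have h1 : π v = 0 := by
      have := congrArg π hv'
      rw [map_add, map_smul, map_sub, hpd, sub_self, smul_zero, add_zero, map_zero] at this
      exact this
    obtain ⟨a, ha, hav⟩ := key v h1 hv0 x
    rw [hav] at hv'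
    have h2 : (1 + t * (a - 1)) • v = 0 := by
      rw [← hv']
      module
    rcases smul_eq_zero.1 h2 with h3 | h3
    · have h4 : (1 - t) + t * a = 0 := by linarith
      rcases ht.1.eq_or_lt with h5 | h5
      · rw [← h5] at h4; norm_num at h4
      · have := mul_pos h5 ha
        linarith [ht.2]
    · exact hv0 h3
  · intro t _ x hx
    show x + t • (h x - x) = x
    rw [hR x hx, sub_self, smul_zero, add_zero]
  · intro x
    show x + (0 : ℝ) • (h x - x) = x
    rw [zero_smul, add_zero]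
  · intro x
    show x + (1 : ℝ) • (h x - x) = h x
    rw [one_smul]
    abel

end

end Pool.Agent.H83.BI
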